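import Mathlib
import Pool.Agent.Lib.MP_c85533_co.Torus

set_option autoImplicit false

namespace Pool.Agent.Results.MP_c85533_co.FlatCounterexample

open Pool.Agent.Lib.MP_c85533_co

universe u

/-- There is a finite self-dual regular 3-polytope `K` of type `{4,4}` (every section of rank two
has eight proper faces, so it is a 4-gon) that is not isomorphic to a medial section of any
internally self-dual regular 5-polytope, finite or infinite. -/
theorem result :
    ∃ (K : Type) (_ : PartialOrder K) (_ : BoundedOrder K) (rkK : K → ℤ),
      IsPolytope K 3 rkK ∧ IsRegularPoset K ∧ IsSelfDual K ∧ Finite K ∧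
      (∀ F G : K, F < G → rkK G = rkK F + 3 → (Set.Ioo F G).ncard = 8) ∧
      ∀ (P : Type u) [PartialOrder P] [BoundedOrder P] (rk : P → ℤ),
        IsPolytope P 5 rk → IsRegularPoset P → IsInternallySelfDual P 5 rk →
          ¬ HasMedialSection P 5 rk K :=
  ⟨T, inferInstance, inferInstance, trk, T_polytope, T_regular, T_selfDual, inferInstance,
    T_squares, fun _ _ _ _ h hreg hisd hm =>
      h.not_internallySelfDual (by norm_num) hreg T_flat hm hisd⟩

end Pool.Agent.Results.MP_c85533_co.FlatCounterexample
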